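import Mathlib

set_option autoImplicit false

/-!
# Counting simple critical points of a real function
-/

namespace Pool.Agent.Zk2.XP

open Filter Topology Set

/-- interlacing finite sets -/
lemma interlace (n : ℕ) : ∀ (A B : Finset ℝ), A.card = n →
    (∀ a ∈ A, ∀ a' ∈ A, a < a' → ∃ b ∈ B, a < b ∧ b < a') → A.card ≤ B.card + 1 := by
  induction n with
  | zero => intro A B hA _; omega
  | succ n ih =>
    intro A B hA h
    rcases Nat.eq_zero_or_pos n with hn | hn
    · omega
    · have hne : A.Nonempty := Finset.card_pos.1 (by omega)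
      set M := A.max' hne with hM
      have hMA : M ∈ A := A.max'_mem hne
      have hc : (A.erase M).card = n := by rw [Finset.card_erase_of_mem hMA]; omega
      have hne' : (A.erase M).Nonempty := Finset.card_pos.1 (by omega)
      set m := (A.erase M).max' hne' with hm
      have hmA' : m ∈ A.erase M := (A.erase M).max'_mem hne'
      have hmA : m ∈ A := (Finset.mem_erase.1 hmA').2
      have hmM : m < M := lt_of_le_of_ne (A.le_max' m hmA) (Finset.mem_erase.1 hmA').1
      obtain ⟨b, hb, hb1, hb2⟩ := h m hmA M hMA hmM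
      have key := ih (A.erase M) (B.erase b) hc (fun a ha a' ha' haa => by
        obtain ⟨c, hc, hc1, hc2⟩ := h a (Finset.mem_erase.1 ha).2 a' (Finset.mem_erase.1 ha').2 haa
        refine ⟨c, Finset.mem_erase.2 ⟨?_, hc⟩, hc1, hc2⟩
        have : a' ≤ m := (A.erase M).le_max' a' ha'
        intro h
        rw [h] at hc2
        linarith)
      rw [Finset.card_erase_of_mem hb, hc] at key
      have hB : 0 < B.card := Finset.card_pos.2 ⟨b, hb⟩
      omega

section

variable {h : ℝ → ℝ}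

/-- between two strict local maxima of `f` there is a local minimum -/
lemma min_between {f : ℝ → ℝ} (hf : Differentiable ℝ f) {a a' : ℝ} (haa : a < a')
    (h1 : deriv f a = 0) (h2 : deriv (deriv f) a < 0) (h1' : deriv f a' = 0)
    (h2' : deriv (deriv f) a' < 0) : ∃ b : ℝ, a < b ∧ b < a' ∧ IsLocalMin f b := by
  obtain ⟨b, hb, hmin⟩ := isCompact_Icc.exists_isMinOn (nonempty_Icc.2 haa.le)
    (hf.continuous.continuousOn (s := Icc a a'))
  have hs := eventually_nhdsWithin_sign_eq_of_deriv_neg h2 h1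
  have hs' := eventually_nhdsWithin_sign_eq_of_deriv_neg h2' h1'
  have hba : b ≠ a := by
    intro hbeq
    obtain ⟨δ, hδ, hball⟩ := Metric.eventually_nhds_iff.1 hs
    set x := min (a + δ / 2) a' with hx
    have hax : a < x := lt_min (by linarith) haa
    have hxa' : x ≤ a' := min_le_right _ _
    have hxd : x ≤ a + δ / 2 := min_le_left _ _
    obtain ⟨c, hc, hc2⟩ := exists_deriv_eq_slope f hax hf.continuous.continuousOn
      hf.differentiableOn
    have hcs := hball (y := c) (by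
      rw [Real.dist_eq, abs_of_pos (by linarith [hc.1])]
      linarith [hc.2])
    have h3 : SignType.sign (a - c) = -1 := sign_neg (by linarith [hc.1])
    rw [h3, sign_eq_neg_one_iff, hc2] at hcs
    have h4 : f a ≤ f x := by
      rw [← hbeq]
      exact hmin ⟨hax.le, hxa'⟩
    have h5 : 0 ≤ (f x - f a) / (x - a) := div_nonneg (by linarith) (by linarith)
    linarith
  have hba' : b ≠ a' := by
    intro hbeq
    obtain ⟨δ, hδ, hball⟩ := Metric.eventually_nhds_iff.1 hs'
    set x := max (a' - δ / 2) a with hx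
    have hax : x < a' := max_lt (by linarith) haa
    have hxa' : a ≤ x := le_max_right _ _
    have hxd : a' - δ / 2 ≤ x := le_max_left _ _
    obtain ⟨c, hc, hc2⟩ := exists_deriv_eq_slope f hax hf.continuous.continuousOn
      hf.differentiableOn
    have hcs := hball (y := c) (by
      rw [Real.dist_eq, abs_of_neg (by linarith [hc.2])]
      linarith [hc.1])
    have h3 : SignType.sign (a' - c) = 1 := sign_pos (by linarith [hc.2])
    rw [h3, sign_eq_one_iff, hc2] at hcs
    have h4 : f a' ≤ f x := by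
      rw [← hbeq]
      exact hmin ⟨hxa', hax.le⟩
    have h5 : (f a' - f x) / (a' - x) ≤ 0 := div_nonpos_of_nonpos_of_nonneg (by linarith) (by linarith)
    linarith
  have h6 : a < b := lt_of_le_of_ne hb.1 (Ne.symm hba)
  have h7 : b < a' := lt_of_le_of_ne hb.2 hba'
  exact ⟨b, h6, h7, hmin.isLocalMin (Icc_mem_nhds h6 h7)⟩

/-- the count -/
theorem rolle_count (hd : Differentiable ℝ h) (hd2 : Differentiable ℝ (deriv h)) (T : ℝ)
    (hZ : {t : ℝ | 0 < t ∧ t ≤ T ∧ h t = 0}.Finite)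
    (hS : {t : ℝ | 0 < t ∧ t ≤ T ∧ deriv h t = 0}.Finite) :
    {t : ℝ | 0 < t ∧ t ≤ T ∧ deriv h t = 0 ∧ deriv (deriv h) t ≠ 0}.ncard ≤
      1 + {t : ℝ | 0 < t ∧ t ≤ T ∧ h t = 0}.ncard +
      {t : ℝ | 0 < t ∧ t ≤ T ∧ h t = 0 ∧ deriv h t = 0}.ncard +
      2 * {t : ℝ | 0 < t ∧ t ≤ T ∧ h t ≠ 0 ∧ IsLocalMin (fun u => h u ^ 2) t}.ncard := by
  classical
  set f : ℝ → ℝ := fun u => h u ^ 2 with hf
  have hfd : Differentiable ℝ f := hd.pow 2
  have hf1 : ∀ t, deriv f t = 2 * h t * deriv h t := by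
    intro t
    have := ((hd t).hasDerivAt.pow 2).deriv
    rw [hf]
    rw [show (fun u => h u ^ 2) = h ^ 2 from rfl, this]
    ring
  have hf1' : deriv f = fun t => 2 * h t * deriv h t := funext hf1
  have hf2 : ∀ t, deriv (deriv f) t = 2 * deriv h t * deriv h t + 2 * h t * deriv (deriv h) t := by
    intro t
    rw [hf1']
    have := (((hd t).hasDerivAt.const_mul 2).mul (hd2 t).hasDerivAt).deriv
    rw [show (fun t => 2 * h t * deriv h t) = (fun y => 2 * h y) * deriv h from rfl, this]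
  set Zr : Set ℝ := {t : ℝ | 0 < t ∧ t ≤ T ∧ h t = 0} with hZr
  set D : Set ℝ := {t : ℝ | 0 < t ∧ t ≤ T ∧ h t = 0 ∧ deriv h t = 0} with hD
  set V : Set ℝ := {t : ℝ | 0 < t ∧ t ≤ T ∧ h t ≠ 0 ∧ IsLocalMin f t} with hV
  set S : Set ℝ := {t : ℝ | 0 < t ∧ t ≤ T ∧ deriv h t = 0 ∧ deriv (deriv h) t ≠ 0} with hSS
  have hVcrit : ∀ t, h t ≠ 0 → IsLocalMin f t → deriv h t = 0 := by
    intro t h0 hm
    have h1 := hm.deriv_eq_zero
    rw [hf1] at h1
    rcases mul_eq_zero.1 h1 with h2 | h2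
    · exact absurd (by linarith [mul_eq_zero.1 h2 |>.resolve_left (by norm_num)]) h0
    · exact h2
  have hSf : S.Finite := hS.subset fun t ht => ⟨ht.1, ht.2.1, ht.2.2.1⟩
  have hVf : V.Finite := hS.subset fun t ht => ⟨ht.1, ht.2.1, hVcrit t ht.2.2.1 ht.2.2.2⟩
  have hDf : D.Finite := hZ.subset fun t ht => ⟨ht.1, ht.2.1, ht.2.2.1⟩
  set Sp : Set ℝ := {t : ℝ | t ∈ S ∧ h t * deriv (deriv h) t < 0} with hSp
  have hSpf : Sp.Finite := hSf.subset fun t ht => ht.1
  have hcover : S ⊆ Sp ∪ (V ∪ D) := by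
    intro t ht
    by_cases h0 : h t = 0
    · exact Or.inr (Or.inr ⟨ht.1, ht.2.1, h0, ht.2.2.1⟩)
    · rcases lt_or_gt_of_ne (mul_ne_zero h0 ht.2.2.2) with h1 | h1
      · exact Or.inl ⟨ht, h1⟩
      · refine Or.inr (Or.inl ⟨ht.1, ht.2.1, h0, ?_⟩)
        apply isLocalMin_of_deriv_deriv_pos _ _ (hfd t).continuousAt
        · rw [hf2, ht.2.2.1]
          nlinarith
        · rw [hf1, ht.2.2.1, mul_zero]
  have hSp_card : Sp.ncard ≤ (Zr ∪ V).ncard + 1 := by
    have hUf : (Zr ∪ V).Finite := hZ.union hVf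
    rw [Set.ncard_eq_toFinset_card _ hSpf, Set.ncard_eq_toFinset_card _ hUf]
    refine interlace _ _ _ rfl fun a ha a' ha' haa => ?_
    rw [Set.Finite.mem_toFinset] at ha ha'
    obtain ⟨⟨p1, p2, p3, p4⟩, p5⟩ := ha
    obtain ⟨⟨q1, q2, q3, q4⟩, q5⟩ := ha'
    obtain ⟨b, hb1, hb2, hb3⟩ := min_between hfd haa (by rw [hf1, p3, mul_zero])
      (by rw [hf2, p3]; nlinarith) (by rw [hf1, q3, mul_zero]) (by rw [hf2, q3]; nlinarith)
    refine ⟨b, ?_, hb1, hb2⟩
    rw [Set.Finite.mem_toFinset]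
    by_cases h0 : h b = 0
    · exact Or.inl ⟨by linarith, by linarith, h0⟩
    · exact Or.inr ⟨by linarith, by linarith, h0, hb3⟩
  have e1 : S.ncard ≤ Sp.ncard + (V.ncard + D.ncard) := by
    refine (Set.ncard_le_ncard hcover (hSpf.union (hVf.union hDf))).trans ?_
    refine (Set.ncard_union_le _ _).trans ?_
    have := Set.ncard_union_le V D
    omega
  have e2 := Set.ncard_union_le Zr V
  omega

end

end Pool.Agent.Zk2.XP
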